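import Mathlib

/-!
# TRC: partition relations for colourings dominated by transitive maps

Basic notions: parameter levels, similar points, closed points, positive sets.
-/

set_option autoImplicit false

namespace Pool.Agent.TRC

open Cardinal Order Set

/-- The set-theoretic setting: `W` of type `ν⁺⁺`, `I` of type `ν⁺`, `(ν⁺) ^ ν = ν⁺`. -/
structure Setting (ν : Cardinal.{0}) (W I : Type) [LinearOrder W] [WellFoundedLT W]
    [LinearOrder I] [WellFoundedLT I] : Prop where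
  inf : ℵ₀ ≤ ν
  pow : (succ ν) ^ ν = succ ν
  bW : ∀ s : Set W, #s ≤ succ ν → ∃ b, ∀ a ∈ s, a < b
  iW : ∀ w : W, #(Iio w) ≤ succ ν
  bI : ∀ s : Set I, #s ≤ ν → ∃ b, ∀ a ∈ s, a < b
  iI : ∀ j : I, #(Iio j) ≤ ν
  cI : #I = succ ν

/-- Recursion along a well-order with a free choice at every step. -/
theorem wf_choice {I V : Type} [LinearOrder I] [WellFoundedLT I]
    (R : ∀ j : I, (∀ j', j' < j → V) → V → Prop) (hR : ∀ j g, ∃ v, R j g v) :
    ∃ h : I → V, ∀ j, R j (fun j' _ => h j') (h j) := by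
  classical
  let F : ∀ j : I, (∀ j', j' < j → V) → V := fun j g => Classical.choose (hR j g)
  refine ⟨(wellFounded_lt (α := I)).fix F, fun j => ?_⟩
  have h1 := (wellFounded_lt (α := I)).fix_eq F j
  rw [h1]
  exact Classical.choose_spec (hR j fun j' _ => (wellFounded_lt (α := I)).fix F j')

/-- A family of predicates on `W` with parameters. -/
structure Lvl (ν : Cardinal.{0}) (W : Type) [LinearOrder W] where
  X : Type
  supp : X → W
  P : X → W → Prop
  bd : ∀ d, #{x // supp x < d} ≤ succ ν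

variable {ν : Cardinal.{0}} {W I : Type} [LinearOrder W] [WellFoundedLT W]
    [LinearOrder I] [WellFoundedLT I]

/-- `y` is similar to `b` over `S`. -/
def Sim (L : Lvl ν W) (S : Set L.X) (y b : W) : Prop :=
  ∀ x ∈ S, L.supp x < y ∧ (L.P x y ↔ L.P x b)

/-- `c` is closed. -/
def Closed (L : Lvl ν W) (c : W) : Prop :=
  ∀ S : Set L.X, #S ≤ ν → (∀ x ∈ S, L.supp x < c) → ∀ b, c ≤ b → ∃ y, y < c ∧ Sim L S y b

/-- `A` is positive at `c`. -/
def Pos (L : Lvl ν W) (c : W) (A : Set W) : Prop :=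
  ∀ S : Set L.X, #S ≤ ν → (∀ x ∈ S, L.supp x < c) → ∃ y ∈ A, y < c ∧ Sim L S y c

theorem exists_closed (hs : Setting ν W I) (L : Lvl ν W) (d₀ : W) :
    ∃ c, d₀ < c ∧ Closed L c := by
  classical
  -- the least element of a class
  let cl : Set L.X × Set L.X → Set W := fun p =>
    {y | ∀ x ∈ p.1, L.supp x < y ∧ (L.P x y ↔ x ∈ p.2)}
  let mn : Set L.X × Set L.X → W := fun p =>
    if h : (cl p).Nonempty then (wellFounded_lt (α := W)).min (cl p) h else d₀
  -- bounds for the least elements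
  have hD : ∀ d : W, ∃ b, ∀ S T : Set L.X, (∀ x ∈ S, L.supp x < d) → #S ≤ ν →
      (∀ x ∈ T, L.supp x < d) → #T ≤ ν → mn (S, T) < b := by
    intro d
    let B := {t : Set L.X // t ⊆ {x | L.supp x < d} ∧ #t ≤ ν}
    have hB : #B ≤ succ ν := by
      refine (mk_bounded_subset_le _ _).trans ?_
      refine le_trans (power_le_power_right (c := ν) ?_) hs.pow.le
      exact max_le (L.bd d) (hs.inf.trans (le_succ ν))
    have hr : #(range fun p : B × B => mn (p.1.1, p.2.1)) ≤ succ ν := by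
      refine mk_range_le.trans ?_
      rw [← mul_def]
      refine (mul_le_mul' hB hB).trans ?_
      exact (mul_eq_self (hs.inf.trans (le_succ ν))).le
    obtain ⟨b, hb⟩ := hs.bW _ hr
    refine ⟨b, fun S T h1 h2 h3 h4 => hb _ ⟨(⟨S, h1, h2⟩, ⟨T, h3, h4⟩), rfl⟩⟩
  choose D hD using hD
  -- the chain
  obtain ⟨h, hh⟩ := wf_choice (I := I) (V := W)
    (fun j g v => d₀ < v ∧ ∀ j' (hj : j' < j), g j' hj < v ∧ D (g j' hj) < v) (by
      intro j g
      have h1 : #(range fun j' : Iio j => max d₀ (max (g j'.1 j'.2) (D (g j'.1 j'.2)))) ≤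
          succ ν := mk_range_le.trans ((hs.iI j).trans (le_succ ν))
      have h2 : #(({d₀} : Set W) ∪ range fun j' : Iio j =>
          max d₀ (max (g j'.1 j'.2) (D (g j'.1 j'.2))) : Set W) ≤ succ ν := by
        refine (mk_union_le _ _).trans ?_
        refine (add_le_add (le_of_eq (mk_singleton d₀)) h1).trans ?_
        rw [add_comm]
        exact (add_one_eq (hs.inf.trans (le_succ ν))).le
      obtain ⟨b, hb⟩ := hs.bW _ h2
      refine ⟨b, hb _ (Or.inl rfl), fun j' hj => ?_⟩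
      have h3 := hb _ (Or.inr ⟨⟨j', hj⟩, rfl⟩)
      exact ⟨lt_of_le_of_lt ((le_max_left _ _).trans (le_max_right _ _)) h3,
        lt_of_le_of_lt ((le_max_right _ _).trans (le_max_right _ _)) h3⟩)
  have hne : {w : W | ∀ j, h j < w}.Nonempty := by
    have h1 : #(range h) ≤ succ ν := mk_range_le.trans hs.cI.le
    obtain ⟨b, hb⟩ := hs.bW _ h1
    exact ⟨b, fun j => hb _ ⟨j, rfl⟩⟩
  obtain ⟨c, hc, hmin⟩ := (wellFounded_lt (α := W)).has_min _ hne
  have hlt : ∀ d, d < c → ∃ j, d ≤ h j := by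
    intro d hd
    by_contra hcon
    push Not at hcon
    exact hmin d hcon hd
  -- `I` is nonempty
  have hI : Nonempty I := by
    rw [← mk_ne_zero_iff, hs.cI]
    exact (lt_of_lt_of_le aleph0_pos (hs.inf.trans (le_succ ν))).ne'
  refine ⟨c, (hh hI.some).1.trans (hc _), ?_⟩
  intro S hS hSc b hb
  choose! j hj using fun x hx => hlt _ (hSc x hx)
  obtain ⟨j₁, hj₁⟩ := hs.bI (j '' S) (mk_image_le.trans hS)
  obtain ⟨j₂, hj₂⟩ := hs.bI {j₁} (by
    rw [mk_singleton]
    exact one_le_aleph0.trans hs.inf)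
  have hj12 : j₁ < j₂ := hj₂ _ rfl
  have hS1 : ∀ x ∈ S, L.supp x < h j₁ := fun x hx =>
    lt_of_le_of_lt (hj x hx) ((hh j₁).2 _ (hj₁ _ ⟨x, hx, rfl⟩)).1
  obtain ⟨T, hT⟩ : ∃ T : Set L.X, T = {x ∈ S | L.P x b} := ⟨_, rfl⟩
  have hTS : T ⊆ S := by
    rw [hT]
    exact fun x hx => hx.1
  have h1 : mn (S, T) < D (h j₁) := hD (h j₁) S T hS1 hS (fun x hx => hS1 x (hTS hx))
    ((mk_le_mk_of_subset hTS).trans hS)
  have hbcl : b ∈ cl (S, T) := by
    intro x hx
    refine ⟨lt_of_lt_of_le (hSc x hx) hb, ?_⟩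
    rw [hT]
    exact ⟨fun h => ⟨hx, h⟩, fun h => h.2⟩
  have hmn : mn (S, T) ∈ cl (S, T) := by
    have h2 : (cl (S, T)).Nonempty := ⟨b, hbcl⟩
    have h3 : mn (S, T) = (wellFounded_lt (α := W)).min (cl (S, T)) h2 := dif_pos h2
    rw [h3]
    exact WellFounded.min_mem _ _ _
  refine ⟨mn (S, T), (h1.trans ((hh j₂).2 _ hj12).2).trans (hc _), fun x hx => ?_⟩
  refine ⟨(hmn x hx).1, (hmn x hx).2.trans ?_⟩
  rw [hT]
  exact ⟨fun h => h.2, fun h => ⟨hx, h⟩⟩

/-- One of countably many classes is positive. -/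
theorem exists_pos (hs : Setting ν W I) (L : Lvl ν W) (c : W) (hc : Closed L c) (g : W → ℕ) :
    ∃ n, Pos L c {y | g y = n} := by
  classical
  by_contra hcon
  push Not at hcon
  unfold Pos at hcon
  push Not at hcon
  choose S hS1 hS2 hS3 using hcon
  have hcard : #(⋃ n, S n : Set L.X) ≤ ν := by
    refine (mk_iUnion_le_sum_mk).trans ?_
    refine (sum_le_mk_mul_iSup _).trans ?_
    refine (mul_le_mul' (mk_nat.le.trans hs.inf) (ciSup_le' hS1)).trans ?_
    exact (mul_eq_self hs.inf).le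
  obtain ⟨y, hy, hsim⟩ := hc (⋃ n, S n) hcard (fun x hx => by
    obtain ⟨n, hn⟩ := mem_iUnion.1 hx
    exact hS2 n x hn) c le_rfl
  exact hS3 (g y) y rfl hy fun x hx => hsim x (mem_iUnion.2 ⟨g y, hx⟩)

omit [WellFoundedLT W] in
/-- Positivity for a larger level implies positivity for a smaller one. -/
theorem Pos.of_map {L L' : Lvl ν W} {c : W} {A : Set W} (φ : L.X → L'.X)
    (h1 : ∀ x, L'.supp (φ x) = L.supp x) (h2 : ∀ x, L'.P (φ x) = L.P x) (h : Pos L' c A) :
    Pos L c A := by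
  intro S hS hSc
  obtain ⟨y, hy, hyc, hsim⟩ := h (φ '' S) (mk_image_le.trans hS) (by
    rintro _ ⟨x, hx, rfl⟩
    rw [h1]
    exact hSc x hx)
  refine ⟨y, hy, hyc, fun x hx => ?_⟩
  have h3 := hsim _ ⟨x, hx, rfl⟩
  rw [h1, h2] at h3
  exact h3

omit [WellFoundedLT W] in
theorem Closed.of_map {L L' : Lvl ν W} {c : W} (φ : L.X → L'.X)
    (h1 : ∀ x, L'.supp (φ x) = L.supp x) (h2 : ∀ x, L'.P (φ x) = L.P x) (h : Closed L' c) :
    Closed L c := by
  intro S hS hSc b hb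
  obtain ⟨y, hyc, hsim⟩ := h (φ '' S) (mk_image_le.trans hS) (by
    rintro _ ⟨x, hx, rfl⟩
    rw [h1]
    exact hSc x hx) b hb
  refine ⟨y, hyc, fun x hx => ?_⟩
  have h3 := hsim _ ⟨x, hx, rfl⟩
  rw [h1, h2] at h3
  exact h3

/-- The union of countably many levels. -/
def sigmaLvl (hν : ℵ₀ ≤ ν) (L : ℕ → Lvl ν W) : Lvl ν W where
  X := Σ i, (L i).X
  supp x := (L x.1).supp x.2
  P x := (L x.1).P x.2
  bd d := by
    have h1 : #{x : Σ i, (L i).X // (L x.1).supp x.2 < d} ≤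
        Cardinal.sum fun i => #{x // (L i).supp x < d} := by
      rw [← mk_sigma]
      refine mk_le_of_injective (f := fun x => ⟨x.1.1, ⟨x.1.2, x.2⟩⟩) ?_
      rintro ⟨⟨i, x⟩, hx⟩ ⟨⟨j, y⟩, hy⟩ h
      simp only [Sigma.mk.injEq] at h
      obtain ⟨rfl, h2⟩ := h
      simp only [heq_eq_eq, Subtype.mk.injEq] at h2
      subst h2
      rfl
    refine h1.trans ((sum_le_mk_mul_iSup _).trans ?_)
    refine (mul_le_mul' (mk_nat.le.trans (hν.trans (le_succ ν)))
      (ciSup_le' fun i => (L i).bd d)).trans ?_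
    exact (mul_eq_self (hν.trans (le_succ ν))).le

theorem Closed.of_sigma {hν : ℵ₀ ≤ ν} {L : ℕ → Lvl ν W} {c : W}
    (h : Closed (sigmaLvl hν L) c) (i : ℕ) : Closed (L i) c :=
  Closed.of_map (L := L i) (L' := sigmaLvl hν L) (fun x => ⟨i, x⟩) (fun _ => rfl)
    (fun _ => rfl) h

theorem Pos.of_sigma {hν : ℵ₀ ≤ ν} {L : ℕ → Lvl ν W} {c : W} {A : Set W}
    (h : Pos (sigmaLvl hν L) c A) (i : ℕ) : Pos (L i) c A :=
  Pos.of_map (L := L i) (L' := sigmaLvl hν L) (fun x => ⟨i, x⟩) (fun _ => rfl)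
    (fun _ => rfl) h

/-- The basic level: the colours of the pairs with a given first point. -/
def baseLvl (hs : Setting ν W I) (f : W → W → ℕ) : Lvl ν W where
  X := W × ℕ
  supp x := x.1
  P x y := f x.1 y = x.2
  bd d := by
    have h1 : #{x : W × ℕ // x.1 < d} ≤ #(Iio d × ℕ) := by
      refine mk_le_of_injective (f := fun x => (⟨x.1.1, x.2⟩, x.1.2)) ?_
      rintro ⟨⟨i, x⟩, hx⟩ ⟨⟨j, y⟩, hy⟩ h
      simpa using h
    refine h1.trans ?_
    rw [mk_prod, lift_id, lift_id]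
    refine (mul_le_mul' (hs.iW d) (mk_nat.le.trans (hs.inf.trans (le_succ ν)))).trans ?_
    exact (mul_eq_self (hs.inf.trans (le_succ ν))).le

end Pool.Agent.TRC
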