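import Mathlib

/-!
# TRC: finite Ramsey theorem for pairs
-/

set_option autoImplicit false

namespace Pool.Agent.TRC

/-- Every large finite set contains a set on which the colour of a pair depends only on the
smaller element. -/
theorem minhom (k : ℕ) (hk : 0 < k) : ∀ m : ℕ, ∃ K : ℕ, ∀ {W : Type} [LinearOrder W]
    (f : W → W → ℕ) (E : Finset W), (∀ a ∈ E, ∀ b ∈ E, a < b → f a b < k) → K ≤ E.card →
    ∃ F ⊆ E, F.card = m ∧ ∃ g : W → ℕ, (∀ a ∈ F, g a < k) ∧
      ∀ a ∈ F, ∀ b ∈ F, a < b → f a b = g a := by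
  intro m
  induction m with
  | zero =>
    refine ⟨0, fun f E _ _ => ⟨∅, Finset.empty_subset _, rfl, fun _ => 0, ?_, ?_⟩⟩
    · intro a ha
      exact absurd ha (Finset.notMem_empty a)
    · intro a ha
      exact absurd ha (Finset.notMem_empty a)
  | succ m ih =>
    obtain ⟨K, hK⟩ := ih
    refine ⟨k * K + 1, ?_⟩
    intro W _ f E hE hcard
    classical
    have hne : E.Nonempty := by
      rw [← Finset.card_pos]
      omega
    obtain ⟨a, ha⟩ : ∃ a, a = E.min' hne := ⟨_, rfl⟩
    have haE : a ∈ E := by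
      rw [ha]
      exact Finset.min'_mem _ _
    have hamin : ∀ b ∈ E.erase a, a < b := by
      intro b hb
      have h1 := Finset.ne_of_mem_erase hb
      have h2 : a ≤ b := by
        rw [ha]
        exact Finset.min'_le _ _ (Finset.mem_of_mem_erase hb)
      exact lt_of_le_of_ne h2 h1.symm
    have h1 : ∀ b ∈ E.erase a, f a b ∈ Finset.range k := fun b hb =>
      Finset.mem_range.2 (hE a haE b (Finset.mem_of_mem_erase hb) (hamin b hb))
    have h2 : (Finset.range k).card * K ≤ (E.erase a).card := by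
      rw [Finset.card_range, Finset.card_erase_of_mem haE]
      omega
    obtain ⟨i, hi, h3⟩ := Finset.exists_le_card_fiber_of_mul_le_card_of_maps_to h1
      ⟨0, Finset.mem_range.2 hk⟩ h2
    obtain ⟨F, hF, hFc, g, hg1, hg2⟩ := hK f ((E.erase a).filter fun b => f a b = i)
      (fun x hx y hy hxy => hE x (Finset.mem_of_mem_erase (Finset.mem_filter.1 hx).1) y
        (Finset.mem_of_mem_erase (Finset.mem_filter.1 hy).1) hxy) h3
    have hFE : F ⊆ E.erase a := hF.trans (Finset.filter_subset _ _)
    have haF : a ∉ F := fun h => Finset.notMem_erase a E (hFE h)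
    refine ⟨insert a F, ?_, ?_, Function.update g a i, ?_, ?_⟩
    · intro x hx
      rcases Finset.mem_insert.1 hx with rfl | hx
      · exact haE
      · exact Finset.mem_of_mem_erase (hFE hx)
    · rw [Finset.card_insert_of_notMem haF, hFc]
    · intro x hx
      rcases Finset.mem_insert.1 hx with rfl | hx
      · rw [Function.update_self]
        exact Finset.mem_range.1 hi
      · have hxa : x ≠ a := fun h => haF (by rw [← h]; exact hx)
        rw [Function.update_of_ne hxa]
        exact hg1 x hx
    · intro x hx y hy hxy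
      rcases Finset.mem_insert.1 hx with hxa | hx'
      · rw [hxa, Function.update_self]
        rcases Finset.mem_insert.1 hy with hya | hy'
        · rw [hxa, hya] at hxy
          exact absurd hxy (lt_irrefl _)
        · exact (Finset.mem_filter.1 (hF hy')).2
      · have hxa : x ≠ a := fun h => haF (by rw [← h]; exact hx')
        rw [Function.update_of_ne hxa]
        rcases Finset.mem_insert.1 hy with hya | hy'
        · rw [hya] at hxy
          exact absurd hxy (not_lt.2 (hamin x (hFE hx')).le)
        · exact hg2 x hx' y hy' hxy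

/-- The finite Ramsey theorem for pairs. -/
theorem ramsey (k : ℕ) (hk : 0 < k) (m : ℕ) : ∃ K : ℕ, ∀ {W : Type} [LinearOrder W]
    (f : W → W → ℕ) (E : Finset W), (∀ a ∈ E, ∀ b ∈ E, a < b → f a b < k) → K ≤ E.card →
    ∃ F ⊆ E, F.card = m ∧ ∃ i < k, ∀ a ∈ F, ∀ b ∈ F, a < b → f a b = i := by
  obtain ⟨K, hK⟩ := minhom k hk (k * m)
  refine ⟨K, ?_⟩
  intro W _ f E hE hcard
  classical
  obtain ⟨F, hF, hFc, g, hg1, hg2⟩ := hK f E hE hcard
  have h2 : (Finset.range k).card * m ≤ F.card := by
    rw [Finset.card_range, hFc]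
  obtain ⟨i, hi, h3⟩ := Finset.exists_le_card_fiber_of_mul_le_card_of_maps_to
    (fun a ha => Finset.mem_range.2 (hg1 a ha)) ⟨0, Finset.mem_range.2 hk⟩ h2
  obtain ⟨G, hG, hGc⟩ := Finset.exists_subset_card_eq h3
  refine ⟨G, (hG.trans (Finset.filter_subset _ _)).trans hF, hGc, i, Finset.mem_range.1 hi, ?_⟩
  intro a ha b hb hab
  rw [hg2 a (Finset.mem_filter.1 (hG ha)).1 b (Finset.mem_filter.1 (hG hb)).1 hab]
  exact (Finset.mem_filter.1 (hG ha)).2

end Pool.Agent.TRC
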