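import Pool.Agent.TRC.Basic
import Pool.Agent.TRC.Ram

/-!
# TRC: colourings dominated by an eventually transitive map
-/

set_option autoImplicit false

namespace Pool.Agent.TRC

open Cardinal Order Set

variable {ν : Cardinal.{0}} {W I : Type} [LinearOrder W] [WellFoundedLT W]
    [LinearOrder I] [WellFoundedLT I]

/-- The level `L` with the additional predicates: the colour `n` of `ρ` is positive. -/
def addPos (hν : ℵ₀ ≤ ν) (w₀ : W) (ρ : W → W → ℕ) (L : Lvl ν W) : Lvl ν W where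
  X := L.X ⊕ ℕ
  supp := Sum.elim L.supp fun _ => w₀
  P := Sum.elim L.P fun n b => Pos L b {y | ρ y b = n}
  bd d := by
    have h1 : #{x : L.X ⊕ ℕ // Sum.elim L.supp (fun _ => w₀) x < d} ≤
        #({x // L.supp x < d} ⊕ ℕ) := by
      refine mk_le_of_injective (f := fun x => match x with
        | ⟨Sum.inl x, hx⟩ => Sum.inl ⟨x, hx⟩
        | ⟨Sum.inr n, _⟩ => Sum.inr n) ?_
      rintro ⟨x | n, hx⟩ ⟨y | n', hy⟩ h
      · simpa using h
      · simp at h
      · simp at h
      · simpa using h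
    refine h1.trans ?_
    rw [mk_sum, lift_id, lift_id]
    refine (add_le_add (L.bd d) (mk_nat.le.trans (hν.trans (le_succ ν)))).trans ?_
    exact (add_eq_self (hν.trans (le_succ ν))).le

/-- The levels. -/
def LD (hs : Setting ν W I) (w₀ : W) (f ρ : W → W → ℕ) : ℕ → Lvl ν W
  | 0 => baseLvl hs f
  | i + 1 => addPos hs.inf w₀ ρ (LD hs w₀ f ρ i)

/-- The basic parameters in a level. -/
def emb (hs : Setting ν W I) (w₀ : W) (f ρ : W → W → ℕ) : ∀ i, W × ℕ → (LD hs w₀ f ρ i).X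
  | 0, x => x
  | i + 1, x => Sum.inl (emb hs w₀ f ρ i x)

lemma supp_emb (hs : Setting ν W I) (w₀ : W) (f ρ : W → W → ℕ) (i : ℕ) (x : W × ℕ) :
    (LD hs w₀ f ρ i).supp (emb hs w₀ f ρ i x) = x.1 := by
  induction i with
  | zero => rfl
  | succ i ih => exact ih

lemma P_emb (hs : Setting ν W I) (w₀ : W) (f ρ : W → W → ℕ) (i : ℕ) (x : W × ℕ) (y : W) :
    (LD hs w₀ f ρ i).P (emb hs w₀ f ρ i x) y ↔ f x.1 y = x.2 := by
  induction i with
  | zero => exact Iff.rfl
  | succ i ih => exact ih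

/-- All pairs of `F` have the colour `i`. -/
def Hm (f : W → W → ℕ) (F : Finset W) (i : ℕ) : Prop := ∀ a ∈ F, ∀ b ∈ F, a < b → f a b = i

/-- Extraction of a homogeneous set below a finite homogeneous set. -/
theorem extract (hs : Setting ν W I) (f : W → W → ℕ) (F : Finset W) (i : ℕ) (e : W) (he : e ∈ F)
    (hpos : Pos (baseLvl hs f) e {y | ∀ x ∈ F, f y x = i}) :
    ∃ h : I → W, (∀ j j', j < j' → h j < h j' ∧ f (h j) (h j') = i) ∧
      ∀ j, h j < e ∧ ∀ x ∈ F, f (h j) x = i := by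
  obtain ⟨h, hh⟩ := wf_choice (I := I) (V := W)
    (fun j g v => (∀ j' (hj : j' < j), g j' hj < e ∧ ∀ x ∈ F, f (g j' hj) x = i) →
      v < e ∧ (∀ x ∈ F, f v x = i) ∧ ∀ j' (hj : j' < j), g j' hj < v ∧ f (g j' hj) v = i) (by
      intro j g
      by_cases hg : ∀ j' (hj : j' < j), g j' hj < e ∧ ∀ x ∈ F, f (g j' hj) x = i
      · obtain ⟨y, hy, hye, hsim⟩ := hpos (range fun j' : Iio j => (g j'.1 j'.2, i))
          (mk_range_le.trans (hs.iI j)) (by
            rintro _ ⟨j', rfl⟩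
            exact (hg j'.1 j'.2).1)
        refine ⟨y, fun _ => ⟨hye, hy, fun j' hj => ?_⟩⟩
        have h1 := hsim _ ⟨⟨j', hj⟩, rfl⟩
        exact ⟨h1.1, h1.2.2 ((hg j' hj).2 e he)⟩
      · exact ⟨e, fun h => absurd h hg⟩)
  have key : ∀ j, h j < e ∧ ∀ x ∈ F, f (h j) x = i := by
    intro j
    induction j using (wellFounded_lt (α := I)).induction with
    | _ j ih =>
      have h1 := hh j fun j' hj => ih j' hj
      exact ⟨h1.1, h1.2.1⟩
  refine ⟨h, fun j j' hj => ?_, key⟩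
  have h1 := (hh j' fun j'' _ => key j'').2.2 j hj
  exact h1

/-- Witnesses against the extension of finite homogeneous sets. -/
theorem ext_wit (hs : Setting ν W I) (f : W → W → ℕ) (m n : ℕ)
    (hNT : ∀ F : Finset W, F.card = m → ∀ i ≤ n, Hm f F i → ∀ e ∈ F, (∀ x ∈ F, e ≤ x) →
      ¬ Pos (baseLvl hs f) e {y | ∀ x ∈ F, f y x = i})
    (E : Finset W) (e : W) (hmin : ∀ x ∈ E, e ≤ x) (S : Set (W × ℕ)) (hS : #S ≤ ν)
    (hSe : ∀ x ∈ S, x.1 < e)
    (hW : ∀ F ⊆ E, e ∉ F → F.card = m → ∀ i ≤ n, Hm f F i → ∀ y < e,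
      Sim (baseLvl hs f) S y e → ¬ ∀ x ∈ F, f y x = i) :
    ∃ S' : Set (W × ℕ), #S' ≤ ν ∧ (∀ x ∈ S', x.1 < e) ∧ S ⊆ S' ∧
      ∀ F ⊆ E, F.card = m → ∀ i ≤ n, Hm f F i → ∀ y < e,
      Sim (baseLvl hs f) S' y e → ¬ ∀ x ∈ F, f y x = i := by
  classical
  have key : ∀ (F : Finset W) (i : ℕ), ∃ T : Set (W × ℕ), #T ≤ ν ∧ (∀ x ∈ T, x.1 < e) ∧
      (F ⊆ E → e ∈ F → F.card = m → i ≤ n → Hm f F i → ∀ y < e,
        Sim (baseLvl hs f) T y e → ¬ ∀ x ∈ F, f y x = i) := by
    intro F i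
    by_cases h : F ⊆ E ∧ e ∈ F ∧ F.card = m ∧ i ≤ n ∧ Hm f F i
    · obtain ⟨h1, h2, h3, h4, h5⟩ := h
      have h6 := hNT F h3 i h4 h5 e h2 fun x hx => hmin x (h1 hx)
      unfold Pos at h6
      push Not at h6
      obtain ⟨T, hT1, hT2, hT3⟩ := h6
      exact ⟨T, hT1, hT2, fun _ _ _ _ _ y hy hsim hall => hT3 y hall hy hsim⟩
    · refine ⟨∅, ?_, fun x hx => absurd hx (notMem_empty x), fun h1 h2 h3 h4 h5 => ?_⟩
      · rw [mk_eq_zero]
        exact zero_le
      · exact absurd ⟨h1, h2, h3, h4, h5⟩ h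
  choose T hT1 hT2 hT3 using key
  refine ⟨S ∪ ⋃ p : {F // F ∈ E.powerset} × Fin (n + 1), T p.1.1 p.2, ?_, ?_,
    subset_union_left, ?_⟩
  · refine (mk_union_le _ _).trans ?_
    refine (add_le_add hS ?_).trans (add_eq_self hs.inf).le
    refine (mk_iUnion_le_sum_mk).trans ((sum_le_mk_mul_iSup _).trans ?_)
    refine (mul_le_mul' ?_ (ciSup_le' fun p => hT1 _ _)).trans (mul_eq_self hs.inf).le
    exact (mk_le_aleph0).trans hs.inf
  · rintro x (hx | hx)
    · exact hSe x hx
    · obtain ⟨p, hp⟩ := mem_iUnion.1 hx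
      exact hT2 _ _ x hp
  · intro F hF hFm i hi hHm y hy hsim
    by_cases heF : e ∈ F
    · refine hT3 F i hF heF hFm hi hHm y hy fun x hx => ?_
      exact hsim x (Or.inr (mem_iUnion.2 ⟨(⟨F, Finset.mem_powerset.2 hF⟩,
        ⟨i, Nat.lt_succ_of_le hi⟩), hx⟩))
    · exact hW F hF heF hFm i hi hHm y hy fun x hx => hsim x (Or.inl hx)

/-- The colouring `ρ` is eventually transitive. -/
def EvTrans (ρ : W → W → ℕ) : Prop :=
  ∀ b c, b < c → (∃ d, d < b) → ∃ d < b, ∀ a, d < a → a < b → ρ a c ≤ max (ρ a b) (ρ b c)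

/-- The descending sequence. -/
theorem descend (hs : Setting ν W I) (w₀ : W) (f ρ : W → W → ℕ) (hρ : EvTrans ρ)
    (hf : ∀ a b, a < b → f a b ≤ ρ a b) (m n : ℕ) (hm : 1 ≤ m)
    (hNT : ∀ F : Finset W, F.card = m → ∀ i ≤ n, Hm f F i → ∀ e ∈ F, (∀ x ∈ F, e ≤ x) →
      ¬ Pos (baseLvl hs f) e {y | ∀ x ∈ F, f y x = i})
    (c : W) (hc : w₀ < c) (K : ℕ) (hpos : Pos (LD hs w₀ f ρ K) c {y | ρ y c = n}) :
    ∀ t ≤ K, ∃ (E : Finset W) (e : W) (S : Set (W × ℕ)), w₀ < e ∧ e ∈ E ∧ (∀ x ∈ E, e ≤ x) ∧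
      E.card = t + 1 ∧ Pos (LD hs w₀ f ρ (K - t)) e {y | ρ y e = n} ∧
      (∀ a ∈ E, ∀ b ∈ E, a < b → ρ a b ≤ n) ∧
      (∀ F ⊆ E, F.card = m + 1 → ∀ i ≤ n, ¬ Hm f F i) ∧ #S ≤ ν ∧ (∀ x ∈ S, x.1 < e) ∧
      ∀ F ⊆ E, F.card = m → ∀ i ≤ n, Hm f F i → ∀ y < e,
      Sim (baseLvl hs f) S y e → ¬ ∀ x ∈ F, f y x = i := by
  classical
  intro t
  induction t with
  | zero =>
    intro _
    obtain ⟨S, hS1, hS2, -, hS3⟩ := ext_wit hs f m n hNT {c} c (fun x hx => by
      rw [Finset.mem_singleton.1 hx]) ∅ (by rw [mk_eq_zero]; exact zero_le)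
      (fun x hx => absurd hx (notMem_empty x)) (by
        intro F hF hcF hFm
        exfalso
        have : F = ∅ := by
          rw [Finset.eq_empty_iff_forall_notMem]
          intro x hx
          have hxc := Finset.mem_singleton.1 (hF hx)
          exact hcF (by rw [← hxc]; exact hx)
        rw [this, Finset.card_empty] at hFm
        omega)
    refine ⟨{c}, c, S, hc, Finset.mem_singleton_self c, fun x hx => ?_, Finset.card_singleton c,
      hpos, ?_, ?_, hS1, hS2, hS3⟩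
    · rw [Finset.mem_singleton.1 hx]
    · intro a ha b hb hab
      rw [Finset.mem_singleton.1 ha, Finset.mem_singleton.1 hb] at hab
      exact absurd hab (lt_irrefl _)
    · intro F hF hFm
      have := Finset.card_le_card hF
      rw [Finset.card_singleton] at this
      omega
  | succ t ih =>
    intro ht
    obtain ⟨E, e, S, he0, heE, hmin, hcard, hp, hrho, hnoh, hS1, hS2, hS3⟩ := ih (by omega)
    -- the next level
    obtain ⟨i, hi⟩ : ∃ i, K - t = i + 1 := ⟨K - t - 1, by omega⟩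
    have hi' : K - (t + 1) = i := by omega
    rw [hi] at hp
    rw [hi']
    -- the points below which the transitivity holds
    have hd : ∀ x : W, ∃ d : W, d < e ∧ (e < x → ∀ a, d < a → a < e →
        ρ a x ≤ max (ρ a e) (ρ e x)) := by
      intro x
      by_cases hx : e < x
      · obtain ⟨d, hd1, hd2⟩ := hρ e x hx ⟨w₀, he0⟩
        exact ⟨d, hd1, fun _ => hd2⟩
      · exact ⟨w₀, he0, fun h => absurd h hx⟩
    choose d hd1 hd2 using hd
    have hpi : Pos (LD hs w₀ f ρ i) e {y | ρ y e = n} :=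
      Pos.of_map (L := LD hs w₀ f ρ i) (L' := LD hs w₀ f ρ (i + 1)) Sum.inl (fun _ => rfl)
        (fun _ => rfl) hp
    obtain ⟨y, hy, hye, hsim⟩ := hp
      ((emb hs w₀ f ρ (i + 1) '' (S ∪ ((fun x => (d x, 0)) '' (E : Set W)) ∪ {(w₀, 0)})) ∪
        {Sum.inr n}) (by
        refine (mk_union_le _ _).trans ?_
        refine (add_le_add (mk_image_le.trans ?_) ?_).trans (add_eq_self hs.inf).le
        · refine (mk_union_le _ _).trans ?_
          refine (add_le_add ((mk_union_le _ _).trans ?_) ?_).trans (add_eq_self hs.inf).le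
          · refine (add_le_add hS1 ?_).trans (add_eq_self hs.inf).le
            exact (((E.finite_toSet).image _).lt_aleph0.le).trans hs.inf
          · rw [mk_singleton]
            exact one_le_aleph0.trans hs.inf
        · exact (le_of_eq (mk_singleton (Sum.inr n : (LD hs w₀ f ρ (i + 1)).X))).trans
            (one_le_aleph0.trans hs.inf)) (by
        rintro x (⟨z, hz, rfl⟩ | hx)
        · rw [supp_emb]
          rcases hz with (hz | ⟨x, hx, rfl⟩) | hz
          · exact hS2 z hz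
          · exact hd1 x
          · rw [mem_singleton_iff.1 hz]
            exact he0
        · rw [mem_singleton_iff.1 hx]
          exact he0)
    have hsim1 : ∀ z ∈ (S ∪ ((fun x => (d x, 0)) '' (E : Set W)) ∪ {(w₀, 0)}),
        z.1 < y ∧ (f z.1 y = z.2 ↔ f z.1 e = z.2) := by
      intro z hz
      have h1 := hsim _ (Or.inl ⟨z, hz, rfl⟩)
      rw [supp_emb, P_emb, P_emb] at h1
      exact h1
    have hy0 : w₀ < y := (hsim1 (w₀, 0) (Or.inr rfl)).1
    have hposy : Pos (LD hs w₀ f ρ i) y {z | ρ z y = n} := by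
      have h1 := (hsim (Sum.inr n) (Or.inr rfl)).2
      exact h1.2 hpi
    have hSy : ∀ x ∈ S, x.1 < y := fun x hx => (hsim1 x (Or.inl (Or.inl hx))).1
    have hyE : y ∉ E := fun h => absurd (hmin y h) (not_le.2 hye)
    have hylt : ∀ x ∈ E, y < x := fun x hx => hye.trans_le (hmin x hx)
    have hrhoy : ∀ x ∈ E, ρ y x ≤ n := by
      intro x hx
      rcases (hmin x hx).eq_or_lt with h | h
      · rw [← h]
        exact le_of_eq hy
      · have h1 : d x < y := (hsim1 (d x, 0) (Or.inl (Or.inr ⟨x, hx, rfl⟩))).1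
        refine (hd2 x h y h1 hye).trans (max_le (le_of_eq hy) (hrho e heE x hx h))
    obtain ⟨S', hS'1, hS'2, hSS', hS'3⟩ := ext_wit hs f m n hNT (insert y E) y (fun x hx => by
      rcases Finset.mem_insert.1 hx with h | h
      · exact h.ge
      · exact (hylt x h).le) S hS1 hSy (by
        intro F hF hyF hFm i' hi' hHm z hz hzsim
        have hFE : F ⊆ E := by
          intro x hx
          rcases Finset.mem_insert.1 (hF hx) with h | h
          · exact absurd (by rw [← h]; exact hx) hyF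
          · exact h
        refine hS3 F hFE hFm i' hi' hHm z (hz.trans hye) fun x hx => ?_
        have h1 := hzsim x hx
        have h2 := hsim1 x (Or.inl (Or.inl hx))
        exact ⟨h1.1, h1.2.trans h2.2⟩)
    refine ⟨insert y E, y, S', hy0, Finset.mem_insert_self y E, ?_, ?_, hposy, ?_, ?_, hS'1,
      hS'2, hS'3⟩
    · intro x hx
      rcases Finset.mem_insert.1 hx with h | h
      · exact h.ge
      · exact (hylt x h).le
    · rw [Finset.card_insert_of_notMem hyE, hcard]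
    · intro a ha b hb hab
      rcases Finset.mem_insert.1 ha with h | h
      · rcases Finset.mem_insert.1 hb with h' | h'
        · rw [h, h'] at hab
          exact absurd hab (lt_irrefl _)
        · rw [h]
          exact hrhoy b h'
      · rcases Finset.mem_insert.1 hb with h' | h'
        · rw [h'] at hab
          exact absurd hab (not_lt.2 (hylt a h).le)
        · exact hrho a h b h' hab
    · intro F hF hFm i' hi' hHm
      by_cases hyF : y ∈ F
      · have hFE : F.erase y ⊆ E := by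
          intro x hx
          rcases Finset.mem_insert.1 (hF (Finset.mem_of_mem_erase hx)) with h | h
          · exact absurd h (Finset.ne_of_mem_erase hx)
          · exact h
        refine hS3 (F.erase y) hFE ?_ i' hi' ?_ y hye ?_ ?_
        · rw [Finset.card_erase_of_mem hyF, hFm]
          rfl
        · intro a ha b hb hab
          exact hHm a (Finset.mem_of_mem_erase ha) b (Finset.mem_of_mem_erase hb) hab
        · intro x hx
          exact hsim1 x (Or.inl (Or.inl hx))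
        · intro x hx
          exact hHm y hyF x (Finset.mem_of_mem_erase hx) (hylt x (hFE hx))
      · have hFE : F ⊆ E := by
          intro x hx
          rcases Finset.mem_insert.1 (hF hx) with h | h
          · exact absurd (by rw [← h]; exact hx) hyF
          · exact h
        exact hnoh F hFE hFm i' hi' hHm

/-- The homogeneous sets of type `ν⁺ + m` (`m ≥ 1`), the colour is bounded independently of
`m`. -/
theorem dom_main (hs : Setting ν W I) (w₀ : W) (f ρ : W → W → ℕ) (hρ : EvTrans ρ)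
    (hf : ∀ a b, a < b → f a b ≤ ρ a b) :
    ∃ n : ℕ, ∀ m : ℕ, ∃ i ≤ n, ∃ (F : Finset W) (h : I → W), F.card = m ∧ Hm f F i ∧
      (∀ j j', j < j' → h j < h j' ∧ f (h j) (h j') = i) ∧
      ∀ j, ∀ x ∈ F, h j < x ∧ f (h j) x = i := by
  obtain ⟨c, hc0, hc⟩ := exists_closed hs (sigmaLvl hs.inf (LD hs w₀ f ρ)) w₀
  obtain ⟨n, hn⟩ := exists_pos hs _ c hc fun y => ρ y c
  refine ⟨n, fun m => ?_⟩
  suffices H : ∃ i ≤ n, ∃ (F : Finset W) (e : W), F.card = m + 1 ∧ Hm f F i ∧ e ∈ F ∧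
      (∀ x ∈ F, e ≤ x) ∧ Pos (baseLvl hs f) e {y | ∀ x ∈ F, f y x = i} by
    obtain ⟨i, hi, F, e, hFm, hHm, he, hmin, hpos⟩ := H
    obtain ⟨h, hh1, hh2⟩ := extract hs f F i e he hpos
    obtain ⟨G, hG, hGc⟩ := Finset.exists_subset_card_eq (s := F) (n := m) (by omega)
    refine ⟨i, hi, G, h, hGc, fun a ha b hb hab => hHm a (hG ha) b (hG hb) hab, hh1, ?_⟩
    intro j x hx
    exact ⟨(hh2 j).1.trans_le (hmin x (hG hx)), (hh2 j).2 x (hG hx)⟩
  by_contra hcon
  push Not at hcon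
  obtain ⟨K, hK⟩ := ramsey (n + 1) (Nat.succ_pos n) (m + 2)
  obtain ⟨E, e, S, -, -, -, hcard, -, hrho, hnoh, -⟩ := descend hs w₀ f ρ hρ hf (m + 1) n
    (by omega) (fun F hFm i hi hHm e he hmin hpos => hcon i hi F e hFm hHm he hmin hpos) c hc0 K
    (hn.of_sigma K) K le_rfl
  obtain ⟨F, hF, hFm, i, hi, hHm⟩ := hK f E (fun a ha b hb hab => Nat.lt_succ_of_le
    ((hf a b hab).trans (hrho a ha b hb hab))) (by omega)
  exact hnoh F hF hFm i (Nat.le_of_lt_succ hi) hHm

end Pool.Agent.TRC
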