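import Pool.Agent.TRC.Basic

/-!
# TRC: transitive colourings
-/

set_option autoImplicit false

namespace Pool.Agent.TRC

open Cardinal Order Set Ordinal

variable {ν : Cardinal.{0}} {W I : Type} [LinearOrder W] [WellFoundedLT W]
    [LinearOrder I] [WellFoundedLT I]

/-- Types over `S`. -/
def Ty (L : Lvl ν W) (S T : Set L.X) (z : W) : Prop :=
  ∀ x ∈ S, L.supp x < z ∧ (L.P x z ↔ x ∈ T)

/-- The good points of the type `T` over `S`. -/
def Zs (L : Lvl ν W) (f : W → W → ℕ) (n : ℕ) (S T : Set L.X) : Set W :=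
  {z | Ty L S T z ∧ ∀ y < z, Ty L S T y → n ≤ f y z}

/-- There is a homogeneous set of good points below the good point `b`, above `s`, of the type of
`w`. -/
def HH (L : Lvl ν W) (f : W → W → ℕ) (n : ℕ) (S T : Set L.X) (w : W) (s : Set W) (b : W) :
    Prop :=
  b ∈ Zs L f n S T ∧ ∃ C : Set W, C ⊆ Zs L f n S T ∧
    (∀ y ∈ C, y < b ∧ f y b = n ∧ ∀ a ∈ s, a < y ∧ f a y = n) ∧
    (∀ y ∈ C, ∀ y' ∈ C, y < y' → f y y' = n) ∧ typeLT (Iio w) ≤ typeLT C

/-- The parameters of `HH`. -/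
structure Par (L : Lvl ν W) : Type where
  S : Set L.X
  T : Set L.X
  n : ℕ
  w : W
  s : Set W
  hS : #S ≤ ν
  hT : #T ≤ ν
  hs : #s ≤ ν

/-- Bounds for the parameters. -/
def Par.Bd {L : Lvl ν W} (p : Par L) (u : W) : Prop :=
  (∀ x ∈ p.S, L.supp x < u) ∧ (∀ x ∈ p.T, L.supp x < u) ∧ p.w < u ∧ ∀ a ∈ p.s, a < u

theorem Par.exists_bd (hs : Setting ν W I) {L : Lvl ν W} (p : Par L) : ∃ u, p.Bd u := by
  have h1 : #((L.supp '' p.S) ∪ (L.supp '' p.T) ∪ {p.w} ∪ p.s : Set W) ≤ succ ν := by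
    refine le_trans ?_ (le_succ ν)
    refine (mk_union_le _ _).trans ?_
    refine (add_le_add ?_ p.hs).trans (add_eq_self hs.inf).le
    refine (mk_union_le _ _).trans ?_
    refine (add_le_add ?_ ?_).trans (add_eq_self hs.inf).le
    · refine (mk_union_le _ _).trans ?_
      exact (add_le_add (mk_image_le.trans p.hS) (mk_image_le.trans p.hT)).trans
        (add_eq_self hs.inf).le
    · rw [mk_singleton]
      exact one_le_aleph0.trans hs.inf
  obtain ⟨u, hu⟩ := hs.bW _ h1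
  exact ⟨u, fun x hx => hu _ (Or.inl (Or.inl (Or.inl ⟨x, hx, rfl⟩))),
    fun x hx => hu _ (Or.inl (Or.inl (Or.inr ⟨x, hx, rfl⟩))),
    hu _ (Or.inl (Or.inr rfl)), fun a ha => hu _ (Or.inr ha)⟩

open Classical in
/-- The least bound. -/
noncomputable def Par.supp {L : Lvl ν W} (p : Par L) : W :=
  if h : {u | p.Bd u}.Nonempty then (wellFounded_lt (α := W)).min {u | p.Bd u} h else p.w

theorem Par.supp_spec (hs : Setting ν W I) {L : Lvl ν W} (p : Par L) : p.Bd p.supp := by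
  have h : {u | p.Bd u}.Nonempty := p.exists_bd hs
  rw [Par.supp, dif_pos h]
  exact WellFounded.min_mem _ _ h

theorem Par.supp_le {L : Lvl ν W} (p : Par L) {u : W} (hu : p.Bd u) : p.supp ≤ u := by
  have h : {u | p.Bd u}.Nonempty := ⟨u, hu⟩
  rw [Par.supp, dif_pos h]
  exact not_lt.1 ((wellFounded_lt (α := W)).not_lt_min {u | p.Bd u} hu)

private theorem small_sets (hs : Setting ν W I) {X : Type} (A : Set X) (hA : #A ≤ succ ν) :
    #{t : Set X // t ⊆ A ∧ #t ≤ ν} ≤ succ ν := by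
  refine (mk_bounded_subset_le _ _).trans ?_
  refine le_trans (power_le_power_right (c := ν) ?_) hs.pow.le
  exact max_le hA (hs.inf.trans (le_succ ν))

/-- The level `L` together with the predicates `HH`. -/
noncomputable def addH (hs : Setting ν W I) (f : W → W → ℕ) (L : Lvl ν W) : Lvl ν W where
  X := L.X ⊕ Par L
  supp := Sum.elim L.supp Par.supp
  P := Sum.elim L.P fun p b => HH L f p.n p.S p.T p.w p.s b
  bd d := by
    have hinf : ℵ₀ ≤ succ ν := hs.inf.trans (le_succ ν)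
    let A := {t : Set L.X // t ⊆ {x | L.supp x < d} ∧ #t ≤ ν}
    let B := {t : Set W // t ⊆ Iio d ∧ #t ≤ ν}
    have hA : #A ≤ succ ν := small_sets hs _ (L.bd d)
    have hB : #B ≤ succ ν := small_sets hs _ (hs.iW d)
    have hp : #{p : Par L // p.supp < d} ≤ succ ν := by
      have h1 : #{p : Par L // p.supp < d} ≤ #((A × A) × (ℕ × Iio d) × B) := by
        refine mk_le_of_injective (f := fun p => ((⟨p.1.S, fun x hx =>
          ((p.1.supp_spec hs).1 x hx).trans p.2, p.1.hS⟩, ⟨p.1.T, fun x hx =>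
          ((p.1.supp_spec hs).2.1 x hx).trans p.2, p.1.hT⟩), (p.1.n, ⟨p.1.w,
          (p.1.supp_spec hs).2.2.1.trans p.2⟩), ⟨p.1.s, fun x hx =>
          ((p.1.supp_spec hs).2.2.2 x hx).trans p.2, p.1.hs⟩)) ?_
        rintro ⟨⟨S, T, n, w, s, h1, h2, h3⟩, hp⟩ ⟨⟨S', T', n', w', s', h1', h2', h3'⟩, hp'⟩ h
        simp only [Prod.mk.injEq, Subtype.mk.injEq] at h
        obtain ⟨⟨e1, e2⟩, ⟨e3, e4⟩, e5⟩ := h
        have e1' := congrArg Subtype.val e1
        have e2' := congrArg Subtype.val e2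
        have e5' := congrArg Subtype.val e5
        simp only at e1' e2' e5'
        subst e1' e2' e3 e4 e5'
        rfl
      refine h1.trans ?_
      simp only [mk_prod, Cardinal.lift_id]
      refine (mul_le_mul' (mul_le_mul' hA hA) (mul_le_mul' (mul_le_mul' (mk_nat.le.trans hinf)
        (hs.iW d)) hB)).trans ?_
      rw [mul_eq_self hinf, mul_eq_self hinf, mul_eq_self hinf]
    have h1 : #{x : L.X ⊕ Par L // Sum.elim L.supp Par.supp x < d} ≤
        #({x // L.supp x < d} ⊕ {p : Par L // p.supp < d}) := by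
      refine mk_le_of_injective (f := fun x => match x with
        | ⟨Sum.inl x, hx⟩ => Sum.inl ⟨x, hx⟩
        | ⟨Sum.inr n, hx⟩ => Sum.inr ⟨n, hx⟩) ?_
      rintro ⟨x | n, hx⟩ ⟨y | n', hy⟩ h
      · simpa using h
      · simp at h
      · simp at h
      · simpa using h
    refine h1.trans ?_
    rw [mk_sum, Cardinal.lift_id, Cardinal.lift_id]
    exact (add_le_add (L.bd d) hp).trans (add_eq_self hinf).le

/-- The levels. -/
noncomputable def LA (hs : Setting ν W I) (f : W → W → ℕ) : ℕ → Lvl ν W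
  | 0 => baseLvl hs f
  | i + 1 => addH hs f (LA hs f i)

/-- The basic parameters in a level. -/
noncomputable def embA (hs : Setting ν W I) (f : W → W → ℕ) : ∀ i, W × ℕ → (LA hs f i).X
  | 0, x => x
  | i + 1, x => Sum.inl (embA hs f i x)

lemma supp_embA (hs : Setting ν W I) (f : W → W → ℕ) (i : ℕ) (x : W × ℕ) :
    (LA hs f i).supp (embA hs f i x) = x.1 := by
  induction i with
  | zero => rfl
  | succ i ih => exact ih

lemma P_embA (hs : Setting ν W I) (f : W → W → ℕ) (i : ℕ) (x : W × ℕ) (y : W) :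
    (LA hs f i).P (embA hs f i x) y ↔ f x.1 y = x.2 := by
  induction i with
  | zero => exact Iff.rfl
  | succ i ih => exact ih

lemma LA_mono (hs : Setting ν W I) (f : W → W → ℕ) {c : W} {A : Set W} {i j : ℕ} (hij : i ≤ j)
    (h : Pos (LA hs f j) c A) : Pos (LA hs f i) c A := by
  induction j, hij using Nat.le_induction with
  | base => exact h
  | succ j hj ih =>
    exact ih (Pos.of_map (L := LA hs f j) (L' := LA hs f (j + 1)) Sum.inl (fun _ => rfl)
      (fun _ => rfl) h)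

/-- A subset below an element is strictly shorter. -/
theorem type_lt_of_top {C D : Set W} (hCD : C ⊆ D) {b : W} (hb : b ∈ D) (h : ∀ y ∈ C, y < b) :
    typeLT C < typeLT D := by
  have h1 : typeLT C ≤ typeLT (Iio (⟨b, hb⟩ : D)) := by
    rw [type_le_iff']
    exact ⟨⟨⟨fun y => ⟨⟨y.1, hCD y.2⟩, h y.1 y.2⟩, fun y y' hy => by
      simpa [Subtype.ext_iff] using hy⟩, Iff.rfl⟩⟩
  refine h1.trans_lt ?_
  rw [type_Iio_lt]
  exact typein_lt_type _ _

theorem le_type_of {C : Set W} {w : W} (h : ∀ w' < w, typeLT (Iio w') < typeLT C) :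
    typeLT (Iio w) ≤ typeLT C := by
  refine le_of_forall_lt fun o ho => ?_
  rw [type_Iio_lt] at ho
  obtain ⟨w', hw'⟩ := typein_surj (· < · : W → W → Prop) (ho.trans (typein_lt_type _ _))
  have h1 : w' < w := by
    rw [← hw'] at ho
    exact (typein_lt_typein (· < · : W → W → Prop)).1 ho
  rw [← hw']
  exact h w' h1

/-- A closed point is above the bounds of small families below it. -/
theorem Closed.bd_lt {hs : Setting ν W I} {f : W → W → ℕ} {i : ℕ} {c : W}
    (hc : Closed (LA hs f i) c) (p : Par (LA hs f i)) (hp : p.Bd c) : p.supp < c := by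
  obtain ⟨y, hyc, hsim⟩ := hc (p.S ∪ p.T ∪ embA hs f i '' ((fun a => (a, 0)) '' ({p.w} ∪ p.s)))
    (by
      refine (mk_union_le _ _).trans ?_
      refine (add_le_add ((mk_union_le _ _).trans ((add_le_add p.hS p.hT).trans
        (add_eq_self hs.inf).le)) ?_).trans (add_eq_self hs.inf).le
      refine (mk_image_le.trans mk_image_le).trans ?_
      refine (mk_union_le _ _).trans ?_
      refine (add_le_add ?_ p.hs).trans (add_eq_self hs.inf).le
      rw [mk_singleton]
      exact one_le_aleph0.trans hs.inf) (by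
      rintro x ((hx | hx) | ⟨_, ⟨a, ha, rfl⟩, rfl⟩)
      · exact hp.1 x hx
      · exact hp.2.1 x hx
      · rw [supp_embA]
        rcases ha with ha | ha
        · rw [mem_singleton_iff.1 ha]
          exact hp.2.2.1
        · exact hp.2.2.2 a ha) c le_rfl
  refine lt_of_le_of_lt (p.supp_le ⟨fun x hx => ?_, fun x hx => ?_, ?_, fun a ha => ?_⟩) hyc
  · exact (hsim x (Or.inl (Or.inl hx))).1
  · exact (hsim x (Or.inl (Or.inr hx))).1
  · have h1 := (hsim _ (Or.inr ⟨_, ⟨p.w, Or.inl rfl, rfl⟩, rfl⟩)).1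
    rwa [supp_embA] at h1
  · have h1 := (hsim _ (Or.inr ⟨_, ⟨a, Or.inr ha, rfl⟩, rfl⟩)).1
    rwa [supp_embA] at h1

/-- The main induction. -/
theorem reach (hs : Setting ν W I) (f : W → W → ℕ)
    (hf : ∀ a b c, a < b → b < c → f a c ≤ max (f a b) (f b c)) (i : ℕ) (c : W)
    (hc : Closed (LA hs f i) c) (n : ℕ) (hpos : Pos (LA hs f (i + 1)) c {y | f y c = n})
    (S T : Set (LA hs f i).X) (hS : #S ≤ ν) (hT : #T ≤ ν) (hSc : ∀ x ∈ S, (LA hs f i).supp x < c)
    (hTc : ∀ x ∈ T, (LA hs f i).supp x < c) (hcZ : c ∈ Zs (LA hs f i) f n S T) :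
    ∀ w, w < c → ∀ s : Set W, #s ≤ ν → (∀ a ∈ s, a < c ∧ f a c = n) →
      HH (LA hs f i) f n S T w s c := by
  intro w
  induction w using (wellFounded_lt (α := W)).induction with
  | _ w ih =>
  intro hw s hss hsc
  refine ⟨hcZ, ?_⟩
  by_cases hne : (Iio w).Nonempty
  swap
  · refine ⟨∅, empty_subset _, fun y hy => absurd hy (notMem_empty y),
      fun y hy => absurd hy (notMem_empty y), le_type_of fun w' hw' => absurd ⟨w', hw'⟩ hne⟩
  -- the enumeration of the points below `w`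
  obtain ⟨π, hπ⟩ : ∃ π : I → W, (∀ j, π j < w) ∧ ∀ w' < w, ∃ j, π j = w' := by
    have h1 : #(Iio w) ≤ #I := by
      rw [hs.cI]
      exact hs.iW w
    obtain ⟨e⟩ := h1
    have : Nonempty (Iio w) := hne.to_subtype
    refine ⟨fun j => (Function.invFun e j).1, fun j => (Function.invFun e j).2, fun w' hw' => ?_⟩
    exact ⟨e ⟨w', hw'⟩, congrArg Subtype.val (Function.leftInverse_invFun e.injective ⟨w', hw'⟩)⟩
  obtain ⟨hπ1, hπ2⟩ := hπ
  -- the blocks
  obtain ⟨h, hh⟩ := wf_choice (I := I) (V := W × Set W)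
    (fun j g v => (∀ j' (hj : j' < j), (g j' hj).1 < c ∧ f (g j' hj).1 c = n) →
      v.1 < c ∧ f v.1 c = n ∧ (∀ a ∈ s, a < v.1 ∧ f a v.1 = n) ∧
      (∀ j' (hj : j' < j), (g j' hj).1 < v.1 ∧ f (g j' hj).1 v.1 = n) ∧
      v.1 ∈ Zs (LA hs f i) f n S T ∧ v.2 ⊆ Zs (LA hs f i) f n S T ∧
      (∀ y ∈ v.2, y < v.1 ∧ f y v.1 = n ∧ (∀ a ∈ s, a < y ∧ f a y = n) ∧
        ∀ j' (hj : j' < j), (g j' hj).1 < y ∧ f (g j' hj).1 y = n) ∧
      (∀ y ∈ v.2, ∀ y' ∈ v.2, y < y' → f y y' = n) ∧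
      typeLT (Iio (π j)) ≤ typeLT v.2) (by
      intro j g
      by_cases hg : ∀ j' (hj : j' < j), (g j' hj).1 < c ∧ f (g j' hj).1 c = n
      swap
      · exact ⟨(c, ∅), fun h => absurd h hg⟩
      obtain ⟨s', hs'⟩ : ∃ s' : Set W, s' = s ∪ range fun j' : Iio j => (g j'.1 j'.2).1 :=
        ⟨_, rfl⟩
      have hs'ν : #s' ≤ ν := by
        rw [hs']
        refine (mk_union_le _ _).trans ?_
        exact (add_le_add hss (mk_range_le.trans (hs.iI j))).trans (add_eq_self hs.inf).le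
      have hs'c : ∀ a ∈ s', a < c ∧ f a c = n := by
        rw [hs']
        rintro a (ha | ⟨j', rfl⟩)
        · exact hsc a ha
        · exact hg j'.1 j'.2
      have hHH := ih (π j) (hπ1 j) ((hπ1 j).trans hw) s' hs'ν hs'c
      let p : Par (LA hs f i) :=
        { S := S, T := T, n := n, w := π j, s := s', hS := hS, hT := hT, hs := hs'ν }
      have hpc : p.supp < c := Closed.bd_lt hc p ⟨hSc, hTc, (hπ1 j).trans hw,
        fun a ha => (hs'c a ha).1⟩
      obtain ⟨y, hy, hyc, hsim⟩ := hpos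
        ((embA hs f (i + 1) '' ((fun a => (a, n)) '' s')) ∪ {Sum.inr p}) (by
          refine (mk_union_le _ _).trans ?_
          refine (add_le_add ((mk_image_le.trans mk_image_le).trans hs'ν) ?_).trans
            (add_eq_self hs.inf).le
          exact (le_of_eq (mk_singleton (Sum.inr p : (LA hs f (i + 1)).X))).trans
            (one_le_aleph0.trans hs.inf)) (by
          rintro x (⟨_, ⟨a, ha, rfl⟩, rfl⟩ | hx)
          · rw [supp_embA]
            exact (hs'c a ha).1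
          · rw [mem_singleton_iff.1 hx]
            exact hpc)
      have hbase : ∀ a ∈ s', a < y ∧ f a y = n := by
        intro a ha
        have h1 := hsim _ (Or.inl ⟨_, ⟨a, ha, rfl⟩, rfl⟩)
        rw [supp_embA, P_embA, P_embA] at h1
        exact ⟨h1.1, h1.2.2 (hs'c a ha).2⟩
      have hHy : HH (LA hs f i) f n S T (π j) s' y := by
        have h1 := (hsim (Sum.inr p) (Or.inr rfl)).2
        exact h1.2 hHH
      obtain ⟨hyZ, C, hC1, hC2, hC3, hC4⟩ := hHy
      refine ⟨(y, C), fun _ => ⟨hyc, hy, fun a ha => hbase a (by rw [hs']; exact Or.inl ha),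
        fun j' hj => hbase _ (by rw [hs']; exact Or.inr ⟨⟨j', hj⟩, rfl⟩), hyZ, hC1,
        fun z hz => ⟨(hC2 z hz).1, (hC2 z hz).2.1,
          fun a ha => (hC2 z hz).2.2 a (by rw [hs']; exact Or.inl ha),
          fun j' hj => (hC2 z hz).2.2 _ (by rw [hs']; exact Or.inr ⟨⟨j', hj⟩, rfl⟩)⟩,
        hC3, hC4⟩⟩)
  have key : ∀ j, (h j).1 < c ∧ f (h j).1 c = n := by
    intro j
    induction j using (wellFounded_lt (α := I)).induction with
    | _ j ihj =>
      have h1 := hh j fun j' hj => ihj j' hj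
      exact ⟨h1.1, h1.2.1⟩
  have hh' := fun j => hh j fun j' _ => key j'
  obtain ⟨B, hB⟩ : ∃ B : I → Set W, B = fun j => insert (h j).1 (h j).2 := ⟨_, rfl⟩
  have hBZ : ∀ j, ∀ y ∈ B j, y ∈ Zs (LA hs f i) f n S T := by
    intro j y hy
    rw [hB] at hy
    rcases hy with hy | hy
    · rw [hy]
      exact (hh' j).2.2.2.2.1
    · exact (hh' j).2.2.2.2.2.1 hy
  have hBle : ∀ j, ∀ y ∈ B j, y = (h j).1 ∨ (y < (h j).1 ∧ f y (h j).1 = n) := by
    intro j y hy
    rw [hB] at hy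
    rcases hy with hy | hy
    · exact Or.inl hy
    · have h1 := (hh' j).2.2.2.2.2.2.1 y hy
      exact Or.inr ⟨h1.1, h1.2.1⟩
  have hBs : ∀ j, ∀ y ∈ B j, (∀ a ∈ s, a < y ∧ f a y = n) ∧
      ∀ j' < j, (h j').1 < y ∧ f (h j').1 y = n := by
    intro j y hy
    rw [hB] at hy
    rcases hy with hy | hy
    · rw [hy]
      exact ⟨(hh' j).2.2.1, (hh' j).2.2.2.1⟩
    · have h1 := (hh' j).2.2.2.2.2.2.1 y hy
      exact ⟨h1.2.2.1, h1.2.2.2⟩
  have hBc : ∀ j, ∀ y ∈ B j, y < c ∧ f y c = n := by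
    intro j y hy
    rcases hBle j y hy with h1 | h1
    · rw [h1]
      exact key j
    · have hyc : y < c := h1.1.trans (key j).1
      refine ⟨hyc, le_antisymm ?_ (hcZ.2 y hyc (hBZ j y hy).1)⟩
      refine (hf y (h j).1 c h1.1 (key j).1).trans (max_le h1.2.le (key j).2.le)
  have hBB : ∀ j j', j < j' → ∀ y ∈ B j, ∀ y' ∈ B j', y < y' ∧ f y y' = n := by
    intro j j' hj y hy y' hy'
    have h2 := (hBs j' y' hy').2 j hj
    rcases hBle j y hy with h1 | h1
    · rw [h1]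
      exact h2
    · have hyy : y < y' := h1.1.trans h2.1
      refine ⟨hyy, le_antisymm ?_ ((hBZ j' y' hy').2 y hyy (hBZ j y hy).1)⟩
      exact (hf y (h j).1 y' h1.1 h2.1).trans (max_le h1.2.le h2.2.le)
  refine ⟨⋃ j, B j, ?_, ?_, ?_, ?_⟩
  · intro y hy
    obtain ⟨j, hj⟩ := mem_iUnion.1 hy
    exact hBZ j y hj
  · intro y hy
    obtain ⟨j, hj⟩ := mem_iUnion.1 hy
    exact ⟨(hBc j y hj).1, (hBc j y hj).2, (hBs j y hj).1⟩
  · intro y hy y' hy' hyy
    obtain ⟨j, hj⟩ := mem_iUnion.1 hy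
    obtain ⟨j', hj'⟩ := mem_iUnion.1 hy'
    rcases lt_trichotomy j j' with hlt | heq | hgt
    · exact (hBB j j' hlt y hj y' hj').2
    · rw [← heq] at hj'
      rcases hBle j y hj with h1 | h1
      · rcases hBle j y' hj' with h2 | h2
        · rw [h1, h2] at hyy
          exact absurd hyy (lt_irrefl _)
        · rw [h1] at hyy
          exact absurd hyy (not_lt.2 h2.1.le)
      · rcases hBle j y' hj' with h2 | h2
        · rw [h2]
          exact h1.2
        · have h3 : y ∈ (h j).2 := by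
            rw [hB] at hj
            exact hj.resolve_left h1.1.ne
          have h4 : y' ∈ (h j).2 := by
            rw [hB] at hj'
            exact hj'.resolve_left h2.1.ne
          exact (hh' j).2.2.2.2.2.2.2.1 y h3 y' h4 hyy
    · exact absurd hyy (not_lt.2 (hBB j' j hgt y' hj' y hj).1.le)
  · apply le_type_of
    intro w' hw'
    obtain ⟨j, rfl⟩ := hπ2 w' hw'
    have h1 : (h j).1 ∈ B j := by
      rw [hB]
      exact mem_insert _ _
    refine lt_of_le_of_lt (hh' j).2.2.2.2.2.2.2.2 (type_lt_of_top (b := (h j).1) ?_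
      (mem_iUnion.2 ⟨j, h1⟩) ?_)
    · intro y hy
      refine mem_iUnion.2 ⟨j, ?_⟩
      rw [hB]
      exact mem_insert_of_mem _ hy
    · intro y hy
      exact ((hh' j).2.2.2.2.2.2.1 y hy).1

/-- Transitive colourings have homogeneous sets of all types. -/
theorem trn_main (hs : Setting ν W I) (f : W → W → ℕ)
    (hf : ∀ a b c, a < b → b < c → f a c ≤ max (f a b) (f b c)) (w : W) :
    ∃ (n : ℕ) (C : Set W), (∀ y ∈ C, ∀ y' ∈ C, y < y' → f y y' = n) ∧
      typeLT (Iio w) ≤ typeLT C := by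
  classical
  obtain ⟨c, hwc, hc⟩ := exists_closed hs (sigmaLvl hs.inf (LA hs f)) w
  have hex : ∃ n, ∀ i, Pos (LA hs f i) c {y | f y c = n} := by
    obtain ⟨n, hn⟩ := exists_pos hs _ c hc fun y => f y c
    exact ⟨n, fun i => hn.of_sigma i⟩
  obtain ⟨n, hn⟩ : ∃ n, n = Nat.find hex := ⟨_, rfl⟩
  have hn1 : ∀ i, Pos (LA hs f i) c {y | f y c = n} := by
    rw [hn]
    exact Nat.find_spec hex
  have hn2 : ∀ k < n, ∃ i, ¬ Pos (LA hs f i) c {y | f y c = k} := by
    intro k hk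
    rw [hn] at hk
    have h1 := Nat.find_min hex hk
    push Not at h1
    exact h1
  choose! g hg using hn2
  obtain ⟨i, hi⟩ : ∃ i, ∀ k < n, g k ≤ i := by
    refine ⟨(Finset.range n).sup g, fun k hk => ?_⟩
    exact Finset.le_sup (Finset.mem_range.2 hk)
  have hwit : ∀ k, ∃ Sk : Set (LA hs f i).X, #Sk ≤ ν ∧ (∀ x ∈ Sk, (LA hs f i).supp x < c) ∧
      (k < n → ∀ y < c, f y c = k → ¬ Sim (LA hs f i) Sk y c) := by
    intro k
    by_cases hk : k < n
    · have h1 : ¬ Pos (LA hs f i) c {y | f y c = k} := fun h => hg k hk (LA_mono hs f (hi k hk) h)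
      unfold Pos at h1
      push Not at h1
      obtain ⟨Sk, h2, h3, h4⟩ := h1
      exact ⟨Sk, h2, h3, fun _ y hy hyk => h4 y hyk hy⟩
    · refine ⟨∅, ?_, fun x hx => absurd hx (notMem_empty x), fun h => absurd h hk⟩
      rw [mk_eq_zero]
      exact zero_le
  choose Sk hSk1 hSk2 hSk3 using hwit
  obtain ⟨S, hS⟩ : ∃ S : Set (LA hs f i).X, S = ⋃ k, Sk k := ⟨_, rfl⟩
  have hSν : #S ≤ ν := by
    rw [hS]
    refine (mk_iUnion_le_sum_mk).trans ((sum_le_mk_mul_iSup _).trans ?_)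
    exact (mul_le_mul' (mk_nat.le.trans hs.inf) (ciSup_le' hSk1)).trans (mul_eq_self hs.inf).le
  have hSc : ∀ x ∈ S, (LA hs f i).supp x < c := by
    rw [hS]
    intro x hx
    obtain ⟨k, hk⟩ := mem_iUnion.1 hx
    exact hSk2 k x hk
  obtain ⟨T, hT⟩ : ∃ T : Set (LA hs f i).X, T = {x ∈ S | (LA hs f i).P x c} := ⟨_, rfl⟩
  have hTS : T ⊆ S := by
    rw [hT]
    exact fun x hx => hx.1
  have hTyc : Ty (LA hs f i) S T c := by
    intro x hx
    refine ⟨hSc x hx, ?_⟩
    rw [hT]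
    exact ⟨fun h => ⟨hx, h⟩, fun h => h.2⟩
  have hcZ : c ∈ Zs (LA hs f i) f n S T := by
    refine ⟨hTyc, fun y hy hTy => ?_⟩
    by_contra hcon
    push Not at hcon
    refine hSk3 (f y c) hcon y hy rfl fun x hx => ?_
    have hxS : x ∈ S := by
      rw [hS]
      exact mem_iUnion.2 ⟨_, hx⟩
    exact ⟨(hTy x hxS).1, (hTy x hxS).2.trans (hTyc x hxS).2.symm⟩
  obtain ⟨-, C, -, -, hC3, hC4⟩ := reach hs f hf i c (hc.of_sigma i) n (hn1 (i + 1)) S T hSν
    ((mk_le_mk_of_subset hTS).trans hSν) hSc (fun x hx => hSc x (hTS hx)) hcZ w hwc ∅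
    (by rw [mk_eq_zero]; exact zero_le) (fun a ha => absurd ha (notMem_empty a))
  exact ⟨n, C, hC3, hC4⟩

end Pool.Agent.TRC
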