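import Pool.Agent.TRC.Dom
import Pool.Agent.TRC.Trn

/-!
# TRC: the partition theorems for ordinals
-/

set_option autoImplicit false

namespace Pool.Agent.TRC

open Cardinal Order Set Ordinal

/-- There is a set of ordinals `< κ` of type `ξ` all of whose pairs have the colour `n`. -/
def Hom (κ : Ordinal.{0}) (f : Ordinal.{0} → Ordinal.{0} → ℕ) (n : ℕ) (ξ : Ordinal.{0}) : Prop :=
  ∃ h : Ordinal.{0} → Ordinal.{0}, (∀ j < ξ, h j < κ) ∧
    ∀ i j, i < j → j < ξ → h i < h j ∧ f (h i) (h j) = n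

theorem Hom.mono {κ : Ordinal.{0}} {f : Ordinal.{0} → Ordinal.{0} → ℕ} {n : ℕ}
    {ξ ξ' : Ordinal.{0}} (h : Hom κ f n ξ') (hle : ξ ≤ ξ') : Hom κ f n ξ := by
  obtain ⟨g, h1, h2⟩ := h
  exact ⟨g, fun j hj => h1 j (hj.trans_le hle), fun i j hij hj => h2 i j hij (hj.trans_le hle)⟩

theorem reg_bdd {κ : Cardinal.{0}} (hκ : κ.IsRegular) (s : Set κ.ord.ToType) (hs : #s < κ) :
    ∃ b, ∀ a ∈ s, a < b := by
  by_contra hcon
  push Not at hcon
  have h1 : IsCofinal s := fun b => by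
    obtain ⟨a, ha, hab⟩ := hcon b
    exact ⟨a, ha, hab⟩
  have h2 := Order.cof_le h1
  rw [Ordinal.cof_toType, hκ.cof_ord] at h2
  exact absurd h2 (not_le.2 hs)

theorem mk_toType' (κ : Cardinal.{0}) : #κ.ord.ToType = κ := by
  rw [← card_type (· < · : κ.ord.ToType → κ.ord.ToType → Prop), type_toType, card_ord]

theorem mk_Iio_toType {κ : Cardinal.{0}} (w : κ.ord.ToType) : #(Iio w) < κ := by
  have h := mk_Iio_lt w (by rw [mk_toType', type_toType])
  rwa [mk_toType'] at h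

theorem setting_of {ν : Cardinal.{0}} (h1 : ℵ₀ ≤ ν) (h2 : 2 ^ ν = succ ν) :
    Setting ν (succ (succ ν)).ord.ToType (succ ν).ord.ToType where
  inf := h1
  pow := by
    rw [← h2, ← power_mul, mul_eq_self h1]
  bW s hs := reg_bdd (isRegular_succ (h1.trans (le_succ ν))) s (lt_succ_iff.2 hs)
  iW w := lt_succ_iff.1 (mk_Iio_toType w)
  bI s hs := reg_bdd (isRegular_succ h1) s (lt_succ_iff.2 hs)
  iI w := lt_succ_iff.1 (mk_Iio_toType w)
  cI := mk_toType' _

/-- The ordinal of a point. -/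
noncomputable def ov {κ : Ordinal.{0}} (x : κ.ToType) : Ordinal.{0} :=
  typein (· < · : κ.ToType → κ.ToType → Prop) x

theorem ov_lt {κ : Ordinal.{0}} {x y : κ.ToType} : ov x < ov y ↔ x < y :=
  typein_lt_typein (· < · : κ.ToType → κ.ToType → Prop)

theorem ov_lt_self {κ : Ordinal.{0}} (x : κ.ToType) : ov x < κ := typein_lt_self x

theorem exists_ov {κ : Ordinal.{0}} {a : Ordinal.{0}} (h : a < κ) : ∃ x : κ.ToType, ov x = a := by
  have h1 : a < typeLT κ.ToType := by rwa [type_toType]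
  exact typein_surj _ h1

/-- Transfer of homogeneous sets. -/
theorem hom_of {κ : Ordinal.{0}} (f : Ordinal.{0} → Ordinal.{0} → ℕ) (n : ℕ) (T : Type)
    (r : T → T → Prop) [IsWellOrder T r] (g : T → κ.ToType)
    (hg : ∀ a b, r a b → g a < g b ∧ f (ov (g a)) (ov (g b)) = n) {ξ : Ordinal.{0}}
    (hξ : ξ ≤ type r) : Hom κ f n ξ := by
  classical
  refine ⟨fun j => if hj : j < type r then ov (g (enum r ⟨j, hj⟩)) else 0, ?_, ?_⟩
  · intro j hj
    have h1 : j < type r := hj.trans_le hξ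
    simp only [dif_pos h1]
    exact ov_lt_self _
  · intro i j hij hj
    have h1 : j < type r := hj.trans_le hξ
    have h2 : i < type r := hij.trans h1
    simp only [dif_pos h1, dif_pos h2]
    have h3 : r (enum r ⟨i, h2⟩) (enum r ⟨j, h1⟩) := (enum r).map_rel_iff.2 hij
    exact ⟨ov_lt.2 (hg _ _ h3).1, (hg _ _ h3).2⟩

/-- Colourings dominated by an eventually transitive map. -/
theorem dom_ord {ν : Cardinal.{0}} (h1 : ℵ₀ ≤ ν) (h2 : 2 ^ ν = succ ν)
    (f ρ : Ordinal.{0} → Ordinal.{0} → ℕ)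
    (hf : ∀ a b, a < b → b < (succ (succ ν)).ord → f a b ≤ ρ a b)
    (hρ : ∀ b c, 0 < b → b < c → c < (succ (succ ν)).ord →
      ∃ d < b, ∀ a, d < a → a < b → ρ a c ≤ max (ρ a b) (ρ b c)) :
    ∃ n, ∀ m : ℕ, Hom (succ (succ ν)).ord f n ((succ ν).ord + m) := by
  have hs := setting_of h1 h2
  have hpos : 0 < (succ (succ ν)).ord := by
    rw [Cardinal.lt_ord, Ordinal.card_zero]
    exact lt_of_lt_of_le aleph0_pos ((h1.trans (le_succ ν)).trans (le_succ _))
  obtain ⟨w₀, -⟩ := exists_ov hpos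
  obtain ⟨N, hN⟩ := dom_main hs w₀ (fun x y => f (ov x) (ov y)) (fun x y => ρ (ov x) (ov y))
    (by
      rintro b c hbc ⟨d, hd⟩
      obtain ⟨d', hd', hd2⟩ := hρ (ov b) (ov c) (lt_of_le_of_lt (zero_le) (ov_lt.2 hd))
        (ov_lt.2 hbc) (ov_lt_self c)
      obtain ⟨e, rfl⟩ := exists_ov (hd'.trans (ov_lt_self b))
      exact ⟨e, ov_lt.1 hd', fun a ha hab => hd2 (ov a) (ov_lt.2 ha) (ov_lt.2 hab)⟩)
    (fun a b hab => hf _ _ (ov_lt.2 hab) (ov_lt_self b))
  have key : ∀ m : ℕ, ∃ i ≤ N, Hom (succ (succ ν)).ord f i ((succ ν).ord + m) := by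
    intro m
    obtain ⟨i, hi, F, h, hFm, hHm, hh1, hh2⟩ := hN m
    refine ⟨i, hi, hom_of f i ((succ ν).ord.ToType ⊕ Fin m) (Sum.Lex (· < ·) (· < ·))
      (Sum.elim h (F.orderEmbOfFin hFm)) ?_ ?_⟩
    · rintro a b hab
      cases hab with
      | inl hxy => exact hh1 _ _ hxy
      | inr hkl =>
        have h4 := (F.orderEmbOfFin hFm).strictMono hkl
        exact ⟨h4, hHm _ (Finset.orderEmbOfFin_mem F hFm _) _ (Finset.orderEmbOfFin_mem F hFm _)
          h4⟩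
      | sep x k => exact hh2 x _ (Finset.orderEmbOfFin_mem F hFm k)
    · rw [type_sum_lex, type_toType, type_fin]
  by_contra hcon
  push Not at hcon
  choose m hm using hcon
  obtain ⟨i, hi, hH⟩ := key ((Finset.range (N + 1)).sup m)
  refine hm i (hH.mono ?_)
  have h3 : m i ≤ (Finset.range (N + 1)).sup m :=
    Finset.le_sup (Finset.mem_range.2 (Nat.lt_succ_of_le hi))
  gcongr

/-- Transitive colourings. -/
theorem trn_ord {ν : Cardinal.{0}} (h1 : ℵ₀ ≤ ν) (h2 : 2 ^ ν = succ ν)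
    (f : Ordinal.{0} → Ordinal.{0} → ℕ)
    (hf : ∀ a b c, a < b → b < c → c < (succ (succ ν)).ord → f a c ≤ max (f a b) (f b c)) :
    ∃ n, ∀ ξ < (succ (succ ν)).ord, Hom (succ (succ ν)).ord f n ξ := by
  have hs := setting_of h1 h2
  have key : ∀ ξ < (succ (succ ν)).ord, ∃ n, Hom (succ (succ ν)).ord f n ξ := by
    intro ξ hξ
    obtain ⟨w, hw⟩ := exists_ov hξ
    obtain ⟨n, C, hC1, hC2⟩ := trn_main hs (fun x y => f (ov x) (ov y))
      (fun a b c hab hbc => hf _ _ _ (ov_lt.2 hab) (ov_lt.2 hbc) (ov_lt_self c)) w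
    refine ⟨n, hom_of f n C (· < ·) Subtype.val (fun a b hab => ⟨hab, hC1 a.1 a.2 b.1 b.2 hab⟩) ?_⟩
    refine le_trans (le_of_eq ?_) hC2
    rw [type_Iio_lt]
    exact hw.symm
  by_contra hcon
  push Not at hcon
  choose ξ hξ1 hξ2 using hcon
  choose x hx using fun n => exists_ov (hξ1 n)
  obtain ⟨b, hb⟩ := hs.bW (range x) (by
    refine mk_range_le.trans ?_
    exact mk_nat.le.trans (h1.trans (le_succ ν)))
  obtain ⟨n, hn⟩ := key (ov b) (ov_lt_self b)
  refine hξ2 n (hn.mono ?_)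
  rw [← hx n]
  exact (ov_lt.2 (hb _ ⟨n, rfl⟩)).le

end Pool.Agent.TRC
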